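import Mathlib
import Pool.Agent.N874.QM.Stm

/-!
# Project QM (helper874), part EMB: an embedding in `ℚ_p` extends to a completion

Author: helper438, with the method of the files `TH115/TC/Compl.lean` and `N498/PQ/Cpl.lean`.
-/

set_option autoImplicit false
set_option linter.all false

open IsDedekindDomain WithZero Filter Topology MonoidWithZeroHom NumberField

namespace Pool.Agent.N438.QM.Emb

section

variable {M : Type} [Field M] [NumberField M] {p : ℕ} [hp : Fact p.Prime] (σ : M →+* ℚ_[p])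

theorem int_le (x : 𝓞 M) : ‖σ (algebraMap (𝓞 M) M x)‖ ≤ 1 := by
  have h1 : IsIntegral ℤ (σ (algebraMap (𝓞 M) M x)) := by
    have h2 : IsIntegral ℤ (algebraMap (𝓞 M) M x) := x.2
    exact h2.map σ.toIntAlgHom
  have h3 : IsIntegral ℤ_[p] (σ (algebraMap (𝓞 M) M x)) := h1.tower_top
  obtain ⟨y, hy⟩ := IsIntegrallyClosed.isIntegral_iff.1 h3
  rw [← hy]
  exact y.2

/-- The map to the `p`-adic integers. -/
noncomputable def red : 𝓞 M →+* ℤ_[p] :=
  (σ.comp (algebraMap (𝓞 M) M)).codRestrict (PadicInt.subring p) fun x => int_le σ x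

theorem red_coe (x : 𝓞 M) : ((red σ x : ℤ_[p]) : ℚ_[p]) = σ (algebraMap (𝓞 M) M x) := rfl

/-- The prime ideal. -/
noncomputable def pI : Ideal (𝓞 M) := (IsLocalRing.maximalIdeal ℤ_[p]).comap (red σ)

theorem mem_pI (x : 𝓞 M) : x ∈ pI σ ↔ ‖σ (algebraMap (𝓞 M) M x)‖ < 1 := by
  rw [pI, Ideal.mem_comap, IsLocalRing.mem_maximalIdeal, mem_nonunits_iff,
    PadicInt.not_isUnit_iff, PadicInt.norm_def, red_coe]

theorem p_mem : (p : 𝓞 M) ∈ pI σ := by
  rw [mem_pI, map_natCast, map_natCast]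
  exact Padic.norm_p_lt_one

/-- The place. -/
noncomputable def pl : HeightOneSpectrum (𝓞 M) where
  asIdeal := pI σ
  isPrime := Ideal.IsPrime.comap _
  ne_bot := by
    intro h0
    have h1 := p_mem σ
    rw [h0, Ideal.mem_bot] at h1
    exact hp.out.ne_zero (by exact_mod_cast h1)

theorem le_of (x : M) (hx : (pl σ).valuation M x ≤ 1) : ‖σ x‖ ≤ 1 := by
  obtain ⟨n, d, hnd⟩ := (pl σ).exists_primeCompl_mul_eq_of_integer x hx
  have hd : ‖σ (algebraMap (𝓞 M) M d)‖ = 1 := by
    refine le_antisymm (int_le σ d) (not_lt.1 fun h => ?_)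
    exact d.2 ((mem_pI σ _).2 h)
  have h1 := congrArg (fun y => ‖σ y‖) hnd
  simp only [map_mul, norm_mul, hd, mul_one] at h1
  rw [h1]
  exact int_le σ n

theorem lt_of (x : M) (hx : (pl σ).valuation M x < 1) : ‖σ x‖ < 1 := by
  obtain ⟨n, d, hnd⟩ := (pl σ).exists_primeCompl_mul_eq_of_integer x hx.le
  have hd : ‖σ (algebraMap (𝓞 M) M d)‖ = 1 := by
    refine le_antisymm (int_le σ d) (not_lt.1 fun h => ?_)
    exact d.2 ((mem_pI σ _).2 h)
  have h1 := congrArg (fun y => ‖σ y‖) hnd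
  simp only [map_mul, norm_mul, hd, mul_one] at h1
  rw [h1, ← mem_pI]
  have h2 : (pl σ).valuation M (algebraMap (𝓞 M) M n) < 1 := by
    rw [← hnd, map_mul]
    exact mul_lt_one_of_lt_of_le hx ((pl σ).valuation_le_one _)
  exact ((pl σ).valuation_lt_one_iff_mem n).1 h2

/-- The field with the topology of the valuation. -/
noncomputable def wf : WithVal ((pl σ).valuation M) →+* ℚ_[p] :=
  σ.comp (WithVal.equiv ((pl σ).valuation M)).toRingHom

theorem wf_cont : Continuous (wf σ) := by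
  have key : ContinuousAt (wf σ).toAddMonoidHom 0 := by
    show Tendsto (wf σ) (𝓝 0) (𝓝 (wf σ 0))
    rw [map_zero]
    intro s hs
    obtain ⟨ε, hε, hεs⟩ := Metric.mem_nhds_iff.1 hs
    obtain ⟨π, hπ⟩ := (pl σ).valuation_exists_uniformizer M
    have hπ0 : π ≠ 0 := by
      rintro rfl
      rw [map_zero] at hπ
      exact exp_ne_zero hπ.symm
    have hπ1 : ‖σ π‖ < 1 := lt_of σ π (by rw [hπ, ← exp_zero, exp_lt_exp]; norm_num)
    obtain ⟨n, hn⟩ := exists_pow_lt_of_lt_one hε hπ1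
    have hne : (Valued.v (R := WithVal ((pl σ).valuation M))).restrict
        (WithVal.toVal ((pl σ).valuation M) (π ^ n)) ≠ 0 := by
      rw [Valuation.ne_zero_iff]
      intro h
      exact pow_ne_zero n hπ0 ((WithVal.toVal_eq_zero _ _).1 h)
    rw [Filter.mem_map, Valued.mem_nhds_zero]
    refine ⟨Units.mk0 _ hne, fun x hx => hεs ?_⟩
    have hx' : Valued.v x < Valued.v (WithVal.toVal ((pl σ).valuation M) (π ^ n)) :=
      (Valuation.restrict_lt_iff _).1 hx
    have hx2 : (pl σ).valuation M x.ofVal < (pl σ).valuation M (π ^ n) := hx'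
    have hpn : (pl σ).valuation M (π ^ n) ≠ 0 := (Valuation.ne_zero_iff _).2 (pow_ne_zero n hπ0)
    have h3 : (pl σ).valuation M (x.ofVal / π ^ n) ≤ 1 := by
      rw [map_div₀]
      exact (div_le_one₀ (zero_lt_iff.2 hpn)).2 hx2.le
    have h4 := le_of σ _ h3
    have e : x.ofVal = π ^ n * (x.ofVal / π ^ n) := by
      field_simp
    rw [Metric.mem_ball, dist_zero_right]
    show ‖σ x.ofVal‖ < ε
    rw [e, map_mul, norm_mul, map_pow, norm_pow]
    calc ‖σ π‖ ^ n * ‖σ (x.ofVal / π ^ n)‖ ≤ ‖σ π‖ ^ n * 1 :=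
          mul_le_mul_of_nonneg_left h4 (by positivity)
      _ < ε := by rwa [mul_one]
  exact continuous_of_continuousAt_zero (wf σ).toAddMonoidHom key

end

/-- **EMB.** -/
theorem emb : Pool.Agent.N874.QM.S_EMB := by
  intro M _ _ p _ σ
  have hc := wf_cont σ
  refine ⟨pl σ, (UniformSpace.Completion.extensionHom (wf σ) hc).comp
    (HeightOneSpectrum.adicCompletion.equiv M (pl σ)).toRingHom, p_mem σ, fun x => ?_⟩
  exact UniformSpace.Completion.extensionHom_coe (wf σ) hc (WithVal.toVal _ x)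

end Pool.Agent.N438.QM.Emb
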