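import Pool.Agent.N874.QM.Stm
import Pool.Agent.N691.PQ.Par
import Pool.Agent.N346.PQ.Loc1

/-!
# Project QM (helper874), parts PI and RAM: inert primes, primes dividing `f'(θ)`

Author: helper438, after the files of helper691 (PQ, part P2) and helper346 (PQ, part LOC1).
-/

set_option autoImplicit false
set_option linter.all false

open Polynomial IsDedekindDomain WithZero UniqueFactorizationMonoid NumberField
open scoped Classical

namespace Pool.Agent.N438.QM.PiRam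

open Pool.Agent.N783.PQ (IsGen GoodS Cg rd dsc S_INT)
open Pool.Agent.N874.PP (Ev)
open Pool.Agent.N862.PP (cn)
open Pool.Agent.N691.PQ (toG ov_nat irr_nat exists_t parity)
open Pool.Agent.N874.QM (S_PI S_RAM)

section inert

variable {L : Type} [Field L] [NumberField L] {g : ℕ} {f : ℤ[X]} {θ : L}

/-- The residue field of a prime over `p` is large. -/
theorem card_p (h : IsGen g f θ) {p : ℕ} (hp : p.Prime) (hf : Irreducible (rd p f))
    {𝔓 : HeightOneSpectrum (𝓞 L)}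
    (hov : Pool.Agent.N691.PQ.Ov (p : ℤ) 𝔓) : p ^ (2 * g + 1) ≤ Ideal.absNorm 𝔓.asIdeal := by
  haveI : Fact p.Prime := ⟨hp⟩
  obtain ⟨t, ht⟩ := exists_t (O := 𝓞 L) (toG h)
  have hroot : aeval t f = 0 := by
    apply IsFractionRing.injective (𝓞 L) L
    rw [← aeval_algebraMap_apply, ht, map_zero]
    exact h.root
  have h2 : ((p : ℕ) : 𝓞 L ⧸ 𝔓.asIdeal) = 0 := by
    have h3 : Ideal.Quotient.mk 𝔓.asIdeal (algebraMap ℤ (𝓞 L) p) = 0 :=
      Ideal.Quotient.eq_zero_iff_mem.2 hov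
    have h4 : ((p : ℕ) : 𝓞 L ⧸ 𝔓.asIdeal) =
        Ideal.Quotient.mk 𝔓.asIdeal (algebraMap ℤ (𝓞 L) p) := by
      rw [algebraMap_int_eq, eq_intCast, map_intCast]
      norm_cast
    rw [h4, h3]
  have hmax := 𝔓.isMaximal
  have hnt : Nontrivial (𝓞 L ⧸ 𝔓.asIdeal) := Ideal.Quotient.nontrivial_iff.2 hmax.ne_top
  letI : Field (𝓞 L ⧸ 𝔓.asIdeal) := Ideal.Quotient.field _
  haveI : Finite (𝓞 L ⧸ 𝔓.asIdeal) := Ideal.finiteQuotientOfFreeOfNeBot _ 𝔓.ne_bot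
  haveI : CharP (𝓞 L ⧸ 𝔓.asIdeal) p := by
    refine (CharP.charP_iff_prime_eq_zero hp).2 h2
  letI : Algebra (ZMod p) (𝓞 L ⧸ 𝔓.asIdeal) := ZMod.algebra _ p
  haveI : Module.Finite (ZMod p) (𝓞 L ⧸ 𝔓.asIdeal) := Module.Finite.of_finite
  have hr : aeval (Ideal.Quotient.mk 𝔓.asIdeal t) (rd p f) = 0 := by
    rw [aeval_def, eval₂_map]
    have h3 : (algebraMap (ZMod p) (𝓞 L ⧸ 𝔓.asIdeal)).comp (Int.castRingHom (ZMod p)) =
        (Ideal.Quotient.mk 𝔓.asIdeal).comp (algebraMap ℤ (𝓞 L)) := RingHom.ext_int _ _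
    rw [h3, ← hom_eval₂]
    have h4 : eval₂ (algebraMap ℤ (𝓞 L)) t f = 0 := hroot
    rw [h4, map_zero]
  have hm := minpoly.eq_of_irreducible_of_monic hf hr (h.mon.map _)
  have hd := minpoly.natDegree_le (A := ZMod p) (Ideal.Quotient.mk 𝔓.asIdeal t)
  rw [← hm, h.mon.natDegree_map, h.deg] at hd
  have hc : Nat.card (𝓞 L ⧸ 𝔓.asIdeal) = p ^ Module.finrank (ZMod p) (𝓞 L ⧸ 𝔓.asIdeal) := by
    rw [Module.natCard_eq_pow_finrank (K := ZMod p), Nat.card_zmod]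
  have ha : Ideal.absNorm 𝔓.asIdeal = Nat.card (𝓞 L ⧸ 𝔓.asIdeal) := by
    rw [Ideal.absNorm_apply]
    rfl
  rw [ha, hc]
  exact Nat.pow_le_pow_right hp.pos hd

theorem norm_p (h : IsGen g f θ) (p : ℕ) :
    Algebra.norm ℤ (algebraMap ℤ (𝓞 L) p) = (p : ℤ) ^ (2 * g + 1) := by
  rw [Algebra.norm_algebraMap_of_basis (RingOfIntegers.basis L)]
  congr 1
  rw [← Module.finrank_eq_card_chooseBasisIndex, RingOfIntegers.rank, h.rank]

/-- `p` is inert. -/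
theorem eq_p (h : IsGen g f θ) {p : ℕ} (hp : p.Prime) (hf : Irreducible (rd p f))
    {𝔓 : HeightOneSpectrum (𝓞 L)}
    (hov : Pool.Agent.N691.PQ.Ov (p : ℤ) 𝔓) :
    𝔓.asIdeal = Ideal.span {algebraMap ℤ (𝓞 L) p} := by
  have h1 := card_p h hp hf hov
  have h2 : 𝔓.asIdeal ∣ Ideal.span {algebraMap ℤ (𝓞 L) p} := by
    rw [Ideal.dvd_span_singleton]
    exact hov
  obtain ⟨J, hJ⟩ := h2
  have h3 := congrArg Ideal.absNorm hJ
  rw [Ideal.absNorm_span_singleton, norm_p h, map_mul, Int.natAbs_pow] at h3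
  have h6 : (0 : ℕ) < p ^ (2 * g + 1) := pow_pos hp.pos _
  have h7 : (p : ℤ).natAbs = p := rfl
  rw [h7] at h3
  have h4 : Ideal.absNorm J = 1 := by
    have h5 : Ideal.absNorm J ≠ 0 := by
      intro h0
      rw [h0, mul_zero] at h3
      omega
    by_contra hne
    have h8 : 2 ≤ Ideal.absNorm J := by omega
    have h9 := Nat.mul_le_mul h1 h8
    rw [← h3] at h9
    omega
  rw [Ideal.absNorm_eq_one_iff] at h4
  rw [hJ, h4, Ideal.mul_top]

end inert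

/-- **PI.** -/
theorem pi' : S_PI := by
  intro g L _ _ f θ h p hp hf x hx hnx 𝔓 hov
  have hG := toG h
  have hov' : Pool.Agent.N691.PQ.Ov (p : ℤ) 𝔓 := ov_nat.1 hov
  have hP : Irreducible (p : ℤ) := irr_nat hp
  have he := eq_p h hp hf hov'
  have hc : cn ℤ (Ideal.span {(p : ℤ)}) 𝔓.asIdeal = 2 * g + 1 := by
    have hn1 : Algebra.intNorm ℤ (𝓞 L) (algebraMap ℤ (𝓞 L) p) = (p : ℤ) ^ (2 * g + 1) := by
      rw [Algebra.intNorm_eq_norm, norm_p h]
    have hirr : Irreducible (Ideal.span {(p : ℤ)} : Ideal ℤ) :=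
      (Ideal.prime_of_isPrime (by simpa using hP.ne_zero)
        ((Ideal.span_singleton_prime hP.ne_zero).mpr hP.prime)).irreducible
    unfold cn
    rw [he, Ideal.relNorm_singleton, hn1, ← Ideal.span_singleton_pow, normalizedFactors_pow,
      Multiset.count_nsmul, normalizedFactors_irreducible hirr, normalize_eq,
      Multiset.count_singleton_self, mul_one]
  refine parity hG hP 𝔓 hov' (by rw [hc]; exact ⟨g, rfl⟩) hx hnx fun 𝔓' ho hne => ?_
  exact absurd (HeightOneSpectrum.ext ((eq_p h hp hf ho).trans he.symm)) hne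

/-- **RAM.** -/
theorem ram (h0 : S_INT) : S_RAM := by
  intro g L _ _ f θ _ hG hsq p hp 𝔓₀ h1 h2
  obtain ⟨c, hc⟩ := Pool.Agent.N346.PQ.Loc1.deg_one (L := L) h0 hG hsq hp
  have hle : ∀ 𝔮 : HeightOneSpectrum (𝓞 L), 𝔮.valuation L (aeval θ (derivative f)) ≤ 1 :=
    fun 𝔮 => Pool.Agent.N346.PQ.Loc1.val_int 𝔮 (Pool.Agent.N346.PQ.Loc1.aeval_int hG _)
  refine ⟨⟨c, hc 𝔓₀ h1 h2⟩, fun 𝔓 h3 h4 => ?_⟩
  by_contra h5
  exact h4 (Pool.Agent.N346.PQ.Loc1.uniq h0 hG hsq hp h3 h1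
    (hc 𝔓 h3 (lt_of_le_of_ne (hle 𝔓) h5)) (hc 𝔓₀ h1 h2))

end Pool.Agent.N438.QM.PiRam
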